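import Pool.Agent.DHN.Z2c

/-!
# MP_bec0da_gt: equal-volume Dehn fillings are not related by finitely many integer matrices

The group `Γ` is an index 7 subgroup of the figure-eight knot group in `SL(2, ℂ)`. See `Pool/Agent/DHN/README.md`
and `Pool/Agent/DHN/Core.lean` for the definitions.
-/

set_option autoImplicit false

open DHN

theorem Pool.Agent.Results.MP_bec0da_gt.NotIntegerLinear.result :
    ∃ (Γ : Subgroup SL2C) (μ lam : Γ), IsOneCusped Γ μ lam ∧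
    ∀ S : Set (Matrix (Fin 2) (Fin 2) ℤ), S.Finite → ∃ j0 : ℤ, ∀ j : ℤ, j0 ≤ j →
      IsCoprime (7 * j + 3) 7 ∧ IsCoprime (3 - 7 * j) 7 ∧
      (∃ v : ℝ, 0 < v ∧ FillingHasVolume Γ μ lam (7 * j + 3) 7 v ∧
        FillingHasVolume Γ μ lam (3 - 7 * j) 7 v) ∧
      ∀ A ∈ S, A.mulVec ![3 - 7 * j, 7] ≠ ![7 * j + 3, 7] ∧
        A.mulVec ![3 - 7 * j, 7] ≠ -![7 * j + 3, 7] :=
  DHN.main_theorem
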